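import Mathlib

/-!
# Bayesian networks on binary variables, their metrics, embeddings into `ℓ₁^k`, tree-decompositions
(helper122, MP_4d0cf5_co)
-/

namespace R122BN

open Finset

/-- A Bayesian network on binary variables `X_v`, `v ∈ V`: a directed acyclic graph, given by the set
`par v` of parents of every vertex, and for every vertex `v` a conditional law
`cpd v x b = Pr[X_v = b | X_pa(v) = x_pa(v)]` that depends only on the restriction of `x` to the
parents of `v`. -/
structure BayesNet (V : Type) [Fintype V] [DecidableEq V] where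
  par : V → Finset V
  acyclic : ∀ v, ¬ Relation.TransGen (fun a b => a ∈ par b) v v
  cpd : V → (V → Bool) → Bool → ℝ
  cpd_par : ∀ v x y, (∀ u ∈ par v, x u = y u) → cpd v x = cpd v y
  cpd_nonneg : ∀ v x b, 0 ≤ cpd v x b
  cpd_sum : ∀ v x, cpd v x true + cpd v x false = 1

variable {V : Type} [Fintype V] [DecidableEq V]

/-- The joint law `Pr[X = x] = ∏_v Pr[X_v = x_v | X_pa(v) = x_pa(v)]`. -/
def BayesNet.law (B : BayesNet V) (x : V → Bool) : ℝ := ∏ v, B.cpd v x (x v)

/-- The metric `d(i, j) = Pr[X_i ≠ X_j]`. -/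
def BayesNet.dist (B : BayesNet V) (i j : V) : ℝ :=
  ∑ x : V → Bool, if x i ≠ x j then B.law x else 0

/-- The underlying undirected graph. -/
def BayesNet.underlying (B : BayesNet V) : SimpleGraph V where
  Adj u v := u ≠ v ∧ (u ∈ B.par v ∨ v ∈ B.par u)
  symm := ⟨fun _ _ h => ⟨h.1.symm, h.2.symm⟩⟩
  loopless := ⟨fun _ h => h.1 rfl⟩

/-- `G` has a tree-decomposition of width at most `k`: all bags have at most `k + 1` vertices, every
vertex and every edge lies in a bag, and the bags containing a given vertex form a connected part of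
the tree. -/
def HasTreeDecomp {V : Type} (G : SimpleGraph V) (k : ℕ) : Prop :=
  ∃ (ι : Type) (T : SimpleGraph ι) (B : ι → Finset V), T.IsTree ∧
    (∀ i, (B i).card ≤ k + 1) ∧
    (∀ v, ∃ i, v ∈ B i) ∧
    (∀ u v, G.Adj u v → ∃ i, u ∈ B i ∧ v ∈ B i) ∧
    (∀ v i j, v ∈ B i → v ∈ B j → ∃ q : T.Walk i j, ∀ x ∈ q.support, v ∈ B x)

/-- `G` has treewidth exactly `2`. -/
def TreewidthTwo {V : Type} (G : SimpleGraph V) : Prop :=
  HasTreeDecomp G 2 ∧ ¬ HasTreeDecomp G 1

/-- The (pseudo)metric `d` embeds into `ℓ₁^k` with distortion at most `C`. -/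
def EmbedsL1 {V : Type} (d : V → V → ℝ) (k : ℕ) (C : ℝ) : Prop :=
  ∃ r : ℝ, 0 < r ∧ ∃ f : V → Fin k → ℝ, ∀ i j,
    r * d i j ≤ ∑ l, |f i l - f j l| ∧ ∑ l, |f i l - f j l| ≤ C * r * d i j

end R122BN
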