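import Pool.Agent.R122.BN.Net
import Pool.Agent.H279R3.TreeHelly

/-!
# Treewidth of the network (helper122, MP_4d0cf5_co)

The first section (graph of a parent function) is copied from `Pool/Agent/R228/HT/C.lean`.
-/

namespace R122BN

section parent

variable {V : Type*}

/-- the graph of a parent function -/
def pgraph (p : V → V) : SimpleGraph V where
  Adj v w := v ≠ w ∧ (w = p v ∨ v = p w)
  symm := ⟨fun _ _ h => ⟨h.1.symm, h.2.symm⟩⟩
  loopless := ⟨fun _ h => h.1 rfl⟩

/-- `rk` is the level function of the parent function `p` with root `o` -/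
structure IsPar (p : V → V) (o : V) (rk : V → ℕ) : Prop where
  root : p o = o
  rk_o : rk o = 0
  rk_p : ∀ v, v ≠ o → rk (p v) + 1 = rk v

variable {p : V → V} {o : V} {rk : V → ℕ}

theorem IsPar.adj (h : IsPar p o rk) {v : V} (hv : v ≠ o) : (pgraph p).Adj v (p v) := by
  refine ⟨fun hc => ?_, Or.inl rfl⟩
  have := h.rk_p v hv
  rw [← hc] at this
  omega

theorem IsPar.cases (h : IsPar p o rk) {v w : V} (hvw : (pgraph p).Adj v w) :
    (v ≠ o ∧ w = p v) ∨ (w ≠ o ∧ v = p w) := by
  rcases hvw with ⟨h1, h2 | h2⟩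
  · refine Or.inl ⟨fun hc => ?_, h2⟩
    rw [hc, h.root] at h2
    exact h1 (hc.trans h2.symm)
  · refine Or.inr ⟨fun hc => ?_, h2⟩
    rw [hc, h.root] at h2
    exact h1 (h2.trans hc.symm)

theorem IsPar.reach (h : IsPar p o rk) : ∀ n v, rk v = n →
    ∃ q : (pgraph p).Walk v o, q.length = n := by
  intro n
  induction n with
  | zero =>
    intro v hv
    have : v = o := by
      by_contra hc
      have := h.rk_p v hc
      omega
    subst this
    exact ⟨SimpleGraph.Walk.nil, rfl⟩
  | succ n ih =>
    intro v hv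
    have hvo : v ≠ o := fun hc => by rw [hc, h.rk_o] at hv; omega
    obtain ⟨q, hq⟩ := ih (p v) (by have := h.rk_p v hvo; omega)
    exact ⟨SimpleGraph.Walk.cons (h.adj hvo) q, by simp [hq]⟩

theorem IsPar.connected (h : IsPar p o rk) : (pgraph p).Connected := by
  rw [SimpleGraph.connected_iff_exists_forall_reachable]
  exact ⟨o, fun v => (h.reach _ v rfl).choose.reachable.symm⟩

/-- lower bound for the distance by a potential -/
theorem pgraph_pot_le {G : SimpleGraph V} (hG : G.Connected) {D : V → ℕ}
    (hD : ∀ v w, G.Adj v w → D v ≤ D w + 1) (v w : V) : D v ≤ D w + G.dist v w := by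
  obtain ⟨q, hq⟩ := hG.exists_walk_length_eq_dist v w
  rw [← hq]
  clear hq
  induction q with
  | nil => simp
  | cons hab q ih =>
    have := hD _ _ hab
    rw [SimpleGraph.Walk.length_cons]
    omega

theorem IsPar.dist_root (h : IsPar p o rk) (v : V) : (pgraph p).dist o v = rk v := by
  apply le_antisymm
  · obtain ⟨q, hq⟩ := h.reach _ v rfl
    rw [SimpleGraph.dist_comm, ← hq]
    exact SimpleGraph.dist_le q
  · have := pgraph_pot_le h.connected (D := rk) (by
      intro v w hvw
      rcases h.cases hvw with ⟨h1, h2⟩ | ⟨h1, h2⟩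
      · rw [h2]; exact (h.rk_p v h1).ge
      · have := h.rk_p w h1
        rw [← h2] at this
        omega) v o
    rw [h.rk_o, zero_add, SimpleGraph.dist_comm] at this
    exact this

theorem IsPar.isTree (h : IsPar p o rk) : (pgraph p).IsTree := by
  refine ⟨h.connected, ?_⟩
  rw [SimpleGraph.isAcyclic_iff_forall_adj_isBridge]
  have key : ∀ v, v ≠ o → (pgraph p).IsBridge s(v, p v) := by
    intro v hv
    rw [SimpleGraph.isBridge_iff_forall_walk_mem_edges]
    intro q
    obtain ⟨d, hd, h1, h2⟩ := q.exists_boundary_dart {u | ∃ n, p^[n] u = v} ⟨0, rfl⟩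
      (by
        rintro ⟨n, hn⟩
        rw [← Function.iterate_succ_apply] at hn
        have key : ∀ m u, rk (p^[m] u) ≤ rk u := by
          intro m
          induction m with
          | zero => intro u; exact le_rfl
          | succ m ih =>
            intro u
            rw [Function.iterate_succ_apply]
            refine (ih _).trans ?_
            by_cases hu : u = o
            · rw [hu, h.root]
            · have := h.rk_p u hu
              omega
        rw [Function.iterate_succ_apply] at hn
        have h1 := key n (p v)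
        rw [hn] at h1
        have := h.rk_p v hv
        omega)
    have e1 : d.fst = v ∧ d.snd = p v := by
      obtain ⟨n, hn⟩ := h1
      rcases d.adj.2 with h3 | h3
      · cases n with
        | zero =>
          have : d.fst = v := hn
          exact ⟨this, by rw [h3, this]⟩
        | succ n =>
          exfalso
          apply h2
          refine ⟨n, ?_⟩
          rw [h3]
          rwa [Function.iterate_succ_apply] at hn
      · exfalso
        apply h2
        refine ⟨n + 1, ?_⟩
        rw [Function.iterate_succ_apply, ← h3]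
        exact hn
    have h3 : d.edge ∈ q.edges := List.mem_map_of_mem hd
    have h4 : d.edge = s(v, p v) := by
      rw [← e1.2]
      have : d.edge = s(d.fst, d.snd) := rfl
      rw [this, e1.1]
    rw [← h4]
    exact h3
  intro v w hvw
  rcases h.cases hvw with ⟨h1, h2⟩ | ⟨h1, h2⟩
  · rw [h2]; exact key v h1
  · rw [h2, Sym2.eq_swap]; exact key w h1

end parent

open Finset

/-- parent of a bag -/
def tpar : Ver → Ver
  | Sum.inl _ => Sum.inl false
  | Sum.inr ([], _) => Sum.inl false
  | Sum.inr ((i, _) :: w, _) => Sum.inr (w, i)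

def trk : Ver → ℕ
  | Sum.inl false => 0
  | Sum.inl true => 1
  | Sum.inr (w, _) => w.length + 1

lemma depth_tpar (v : Ver) : depth (tpar v) ≤ depth v := by
  rcases v with b | ⟨_ | ⟨⟨i, h⟩, w⟩, j⟩
  · exact le_rfl
  · simp [tpar, depth_inl]
  · simp [tpar, depth_inr]

def tparV (n : ℕ) (v : V n) : V n := ⟨tpar v.1, (depth_tpar v.1).trans v.2⟩

def root (n : ℕ) : V n := ⟨Sum.inl false, Nat.zero_le _⟩

lemma isPar (n : ℕ) : IsPar (tparV n) (root n) (fun v => trk v.1) where
  root := rfl
  rk_o := rfl
  rk_p := by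
    rintro ⟨(_ | _) | ⟨_ | ⟨⟨i, h⟩, w⟩, j⟩, hv⟩ hne
    · exact absurd rfl hne
    · rfl
    · rfl
    · rfl

/-- the bags -/
def bagP : Ver → Ver → Prop
  | Sum.inl _, u => u = Sum.inl false ∨ u = Sum.inl true
  | Sum.inr (w, i), u => u = (ends w).1 ∨ u = (ends w).2 ∨ u = Sum.inr (w, i)

open Classical in
noncomputable def bag (n : ℕ) (v : V n) : Finset (V n) := univ.filter fun u => bagP v.1 u.1

lemma mem_bag {n : ℕ} {v u : V n} : u ∈ bag n v ↔ bagP v.1 u.1 := by
  unfold bag
  simp

lemma card_bag (n : ℕ) (v : V n) : (bag n v).card ≤ 3 := by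
  classical
  have h1 : ((bag n v).image Subtype.val).card = (bag n v).card :=
    card_image_of_injective _ Subtype.val_injective
  rw [← h1]
  obtain ⟨v, hv⟩ := v
  rcases v with b | ⟨w, i⟩
  · have : (bag n ⟨Sum.inl b, hv⟩).image Subtype.val ⊆ {Sum.inl false, Sum.inl true} := by
      intro u hu
      obtain ⟨u', hu', rfl⟩ := mem_image.1 hu
      rw [mem_bag] at hu'
      simpa [bagP] using hu'
    exact (card_le_card this).trans (card_le_two.trans (by norm_num))
  · have : (bag n ⟨Sum.inr (w, i), hv⟩).image Subtype.val ⊆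
        {(ends w).1, (ends w).2, Sum.inr (w, i)} := by
      intro u hu
      obtain ⟨u', hu', rfl⟩ := mem_image.1 hu
      rw [mem_bag] at hu'
      simpa [bagP] using hu'
    exact (card_le_card this).trans card_le_three

lemma bag_self {n : ℕ} (v : V n) : v ∈ bag n v := by
  rw [mem_bag]
  obtain ⟨(_ | _) | ⟨w, i⟩, hv⟩ := v
  · exact Or.inl rfl
  · exact Or.inr rfl
  · exact Or.inr (Or.inr rfl)

def top {n : ℕ} (v : V n) : V n :=
  match v with
  | ⟨Sum.inl _, _⟩ => root n
  | ⟨Sum.inr p, h⟩ => ⟨Sum.inr p, h⟩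

lemma step {n : ℕ} {v i : V n} (h : v ∈ bag n i) (hne : i ≠ top v) :
    i ≠ root n ∧ v ∈ bag n (tparV n i) := by
  rw [mem_bag] at h ⊢
  obtain ⟨v, hv⟩ := v
  obtain ⟨(_ | _) | ⟨_ | ⟨⟨j, b⟩, w⟩, k⟩, hi⟩ := i
  · exfalso
    rcases h with h | h
    · simp only at h; subst h; exact hne rfl
    · simp only at h; subst h; exact hne rfl
  · exact ⟨by simp [root], h⟩
  · refine ⟨by simp [root], ?_⟩
    rcases h with h | h | h
    · exact Or.inl h
    · exact Or.inr h
    · exfalso
      simp only at h
      subst h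
      exact hne rfl
  · refine ⟨by simp [root], ?_⟩
    rcases h with h | h | h
    · simp only at h
      cases b
      · simp only [ends, Bool.false_eq_true, if_false] at h
        exact Or.inl h
      · simp only [ends, if_true] at h
        exact Or.inr (Or.inr h)
    · simp only at h
      cases b
      · simp only [ends, Bool.false_eq_true, if_false] at h
        exact Or.inr (Or.inr h)
      · simp only [ends, if_true] at h
        exact Or.inr (Or.inl h)
    · exfalso
      simp only at h
      subst h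
      exact hne rfl

lemma walk_top {n : ℕ} {v : V n} : ∀ (m : ℕ) (i : V n), trk i.1 ≤ m → v ∈ bag n i →
    ∃ q : (pgraph (tparV n)).Walk i (top v), ∀ x ∈ q.support, v ∈ bag n x := by
  intro m
  induction m with
  | zero =>
    intro i hi h
    by_cases hc : i = top v
    · subst hc
      exact ⟨SimpleGraph.Walk.nil, by simpa using h⟩
    · obtain ⟨h1, _⟩ := step h hc
      have := (isPar n).rk_p i h1
      omega
  | succ m ih =>
    intro i hi h
    by_cases hc : i = top v
    · subst hc
      exact ⟨SimpleGraph.Walk.nil, by simpa using h⟩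
    · obtain ⟨h1, h2⟩ := step h hc
      have h3 := (isPar n).rk_p i h1
      obtain ⟨q, hq⟩ := ih (tparV n i) (by omega) h2
      refine ⟨SimpleGraph.Walk.cons ((isPar n).adj h1) q, ?_⟩
      intro x hx
      rw [SimpleGraph.Walk.support_cons, List.mem_cons] at hx
      rcases hx with rfl | hx
      · exact h
      · exact hq x hx

theorem tw_le (n : ℕ) : HasTreeDecomp (net n).underlying 2 := by
  refine ⟨V n, pgraph (tparV n), bag n, (isPar n).isTree, card_bag n, fun v => ⟨v, bag_self v⟩,
    ?_, ?_⟩
  · have key : ∀ u v : V n, u ∈ (net n).par v → u ∈ bag n v := by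
      intro u v h
      have h' : IsP u.1 v.1 := by simpa [net] using h
      rw [mem_bag]
      obtain ⟨w, i, h1, h2⟩ := h'
      rw [h1]
      rcases h2 with h2 | h2
      · exact Or.inl h2
      · exact Or.inr (Or.inl h2)
    rintro u v ⟨_, h | h⟩
    · exact ⟨v, key u v h, bag_self v⟩
    · exact ⟨u, bag_self u, key v u h⟩
  · intro v i j hi hj
    obtain ⟨q, hq⟩ := walk_top _ i le_rfl hi
    obtain ⟨q', hq'⟩ := walk_top _ j le_rfl hj
    refine ⟨q.append q'.reverse, ?_⟩
    intro x hx
    rw [SimpleGraph.Walk.mem_support_append_iff] at hx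
    rcases hx with hx | hx
    · exact hq x hx
    · rw [SimpleGraph.Walk.support_reverse, List.mem_reverse] at hx
      exact hq' x hx

/-- a triangle forces a bag with three vertices -/
theorem not_tw_one {U : Type} {G : SimpleGraph U} {a b c : U} (hab : G.Adj a b) (hbc : G.Adj b c)
    (hac : G.Adj a c) : ¬ HasTreeDecomp G 1 := by
  classical
  rintro ⟨ι, T, B, hT, hk, hcov, he, hv⟩
  let f : Fin 3 → U := ![a, b, c]
  obtain ⟨x, hx⟩ := H279R3.helly hT (fun m : Fin 3 => {i | f m ∈ B i})
    (fun m i hi j hj => hv (f m) i j hi hj)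
    (by
      intro m m'
      fin_cases m <;> fin_cases m'
      · obtain ⟨i, hi⟩ := hcov a; exact ⟨i, hi, hi⟩
      · obtain ⟨i, h1, h2⟩ := he a b hab; exact ⟨i, h1, h2⟩
      · obtain ⟨i, h1, h2⟩ := he a c hac; exact ⟨i, h1, h2⟩
      · obtain ⟨i, h1, h2⟩ := he a b hab; exact ⟨i, h2, h1⟩
      · obtain ⟨i, hi⟩ := hcov b; exact ⟨i, hi, hi⟩
      · obtain ⟨i, h1, h2⟩ := he b c hbc; exact ⟨i, h1, h2⟩
      · obtain ⟨i, h1, h2⟩ := he a c hac; exact ⟨i, h2, h1⟩
      · obtain ⟨i, h1, h2⟩ := he b c hbc; exact ⟨i, h2, h1⟩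
      · obtain ⟨i, hi⟩ := hcov c; exact ⟨i, hi, hi⟩)
  have ha : a ∈ B x := hx 0
  have hb : b ∈ B x := hx 1
  have hc : c ∈ B x := hx 2
  have h3 : ({a, b, c} : Finset U).card = 3 := card_eq_three.2 ⟨a, b, c, hab.ne, hac.ne, hbc.ne, rfl⟩
  have h4 : ({a, b, c} : Finset U) ⊆ B x := by
    intro u hu
    simp only [mem_insert, mem_singleton] at hu
    rcases hu with rfl | rfl | rfl <;> assumption
  have := card_le_card h4
  have := hk x
  omega

theorem tw_two {n : ℕ} (hn : 2 ≤ n) : TreewidthTwo (net n).underlying := by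
  refine ⟨tw_le n, ?_⟩
  let a : V n := ⟨Sum.inl false, Nat.zero_le _⟩
  let b : V n := ⟨Sum.inr ([], false), show 0 + 1 ≤ n by omega⟩
  let c : V n := ⟨Sum.inr ([(false, false)], false), show 1 + 1 ≤ n by omega⟩
  apply not_tw_one (a := a) (b := b) (c := c)
  · refine ⟨by simp [a, b], Or.inl ?_⟩
    simp only [net, mem_filter, mem_univ, true_and]
    exact ⟨[], false, rfl, Or.inl rfl⟩
  · refine ⟨by simp [b, c], Or.inl ?_⟩
    simp only [net, mem_filter, mem_univ, true_and]
    exact ⟨[(false, false)], false, rfl, Or.inr rfl⟩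
  · refine ⟨by simp [a, c], Or.inl ?_⟩
    simp only [net, mem_filter, mem_univ, true_and]
    exact ⟨[(false, false)], false, rfl, Or.inl rfl⟩

end R122BN
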