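import Pool.Agent.R122.BN.Pot
import Pool.Agent.R122.BN.Tw

/-!
# The lower bound for the dimension (helper122, MP_4d0cf5_co)
-/

namespace R122BN

open Finset Filter Topology

lemma n1_smul {k : ℕ} (c : ℝ) (hc : 0 ≤ c) (u : Fin k → ℝ) : n1 (c • u) = c * n1 u := by
  unfold n1
  rw [mul_sum]
  apply sum_congr rfl
  intro l _
  rw [Pi.smul_apply, smul_eq_mul, abs_mul, abs_of_nonneg hc]

lemma n1_sub_comm {k : ℕ} (u v : Fin k → ℝ) : n1 (u - v) = n1 (v - u) := by
  unfold n1
  apply sum_congr rfl
  intro l _
  rw [Pi.sub_apply, Pi.sub_apply, abs_sub_comm]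

lemma n1_add_le {k : ℕ} (u v : Fin k → ℝ) : n1 (u + v) ≤ n1 u + n1 v := by
  unfold n1
  rw [← sum_add_distrib]
  exact sum_le_sum fun l _ => abs_add_le _ _

/-- Any embedding of the metric of `net n` into `ℓ₁^k` with distortion at most `C` satisfies
`n ≤ 32 C² log (1 + (k + 1) C)`. -/
theorem lower_bound {n k : ℕ} {C : ℝ} (hC : 1 ≤ C) (h : EmbedsL1 (net n).dist k C) :
    (n : ℝ) ≤ 32 * C ^ 2 * Real.log (1 + ((k : ℝ) + 1) * C) := by
  obtain ⟨r, hr, f, hf⟩ := h
  -- the rescaled map
  let g : V n → Fin k → ℝ := fun v => (1 / r) • f v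
  have hg : ∀ i j, (net n).dist i j ≤ n1 (g i - g j) ∧ n1 (g i - g j) ≤ C * (net n).dist i j := by
    intro i j
    have e : n1 (g i - g j) = (1 / r) * ∑ l, |f i l - f j l| := by
      have : g i - g j = (1 / r) • (f i - f j) := by
        simp only [g]
        rw [smul_sub]
      rw [this, n1_smul _ (by positivity)]
      rfl
    obtain ⟨h1, h2⟩ := hf i j
    rw [e]
    constructor
    · rw [one_div, ← div_eq_inv_mul, le_div_iff₀ hr]
      linarith
    · rw [one_div, ← div_eq_inv_mul, div_le_iff₀ hr]
      linarith
  -- normalized edge vectors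
  let u : (w : W) → w.length ≤ n → Fin k → ℝ := fun w h =>
    (2 : ℝ) ^ w.length • (g (endV w h).2 - g (endV w h).1)
  have hu : ∀ w (h : w.length ≤ n), n1 (u w h) ≤ C := by
    intro w h
    simp only [u]
    rw [n1_smul _ (by positivity), n1_sub_comm]
    have h1 := (hg (endV w h).1 (endV w h).2).2
    rw [dist_ends] at h1
    calc (2 : ℝ) ^ w.length * n1 (g (endV w h).1 - g (endV w h).2)
        ≤ (2 : ℝ) ^ w.length * (C * (1 / 2) ^ w.length) :=
          mul_le_mul_of_nonneg_left h1 (by positivity)
      _ = C * ((2 : ℝ) ^ w.length * (1 / 2) ^ w.length) := by ring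
      _ = C := by rw [← mul_pow]; norm_num
  have key : ∀ m : ℕ, m ≤ n → ∃ w, ∃ h : w.length ≤ n, w.length = m ∧
      (m : ℝ) * (1 / (32 * C)) ≤ Pot (u w h) := by
    intro m
    induction m with
    | zero =>
      intro _
      refine ⟨[], Nat.zero_le _, rfl, ?_⟩
      rw [Nat.cast_zero, zero_mul]
      exact pot_nonneg _
    | succ m ih =>
      intro hm
      obtain ⟨w, h, hw, hP⟩ := ih (by omega)
      have hlt : w.length < n := by omega
      -- the four children
      have hch : ∀ i b : Bool, ((i, b) :: w).length ≤ n := fun i b => by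
        rw [List.length_cons]; omega
      have e0 : ∀ i : Bool, u ((i, false) :: w) (hch i false) =
          (2 : ℝ) ^ (w.length + 1) • (g (midV w hlt i) - g (endV w h).1) := fun i => rfl
      have e1 : ∀ i : Bool, u ((i, true) :: w) (hch i true) =
          (2 : ℝ) ^ (w.length + 1) • (g (endV w h).2 - g (midV w hlt i)) := fun i => rfl
      let δ : Bool → Fin k → ℝ := fun i => u ((i, false) :: w) (hch i false) - u w h
      have c0 : ∀ i, u ((i, false) :: w) (hch i false) = u w h + δ i := fun i => by
        simp only [δ]; abel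
      have c1 : ∀ i, u ((i, true) :: w) (hch i true) = u w h - δ i := fun i => by
        simp only [δ]
        rw [e0, e1]
        funext l
        simp only [u, Pi.sub_apply, Pi.smul_apply, smul_eq_mul]
        rw [pow_succ]
        ring
      have hδ : ∀ i, n1 (δ i) ≤ 2 * C := by
        intro i
        have : δ i = u ((i, false) :: w) (hch i false) + (-1 : ℝ) • u w h := by
          simp only [δ]
          funext l
          simp only [Pi.sub_apply, Pi.add_apply, Pi.smul_apply, smul_eq_mul]
          ring
        rw [this]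
        refine (n1_add_le _ _).trans ?_
        have h1 := hu _ (hch i false)
        have h2 : n1 ((-1 : ℝ) • u w h) = n1 (u w h) := by
          unfold n1
          apply sum_congr rfl
          intro l _
          rw [Pi.smul_apply, smul_eq_mul, abs_mul]
          simp
        have h3 := hu w h
        linarith
      have hsum : 1 ≤ n1 (δ false) + n1 (δ true) := by
        have h1 := (hg (midV w hlt false) (midV w hlt true)).1
        rw [dist_mid] at h1
        have h2 : (2 : ℝ) ^ (w.length + 1) • (g (midV w hlt false) - g (midV w hlt true)) =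
            δ false + (-1 : ℝ) • δ true := by
          simp only [δ]
          rw [e0, e0]
          funext l
          simp only [Pi.sub_apply, Pi.add_apply, Pi.smul_apply, smul_eq_mul]
          ring
        have h3 : 1 ≤ n1 ((2 : ℝ) ^ (w.length + 1) •
            (g (midV w hlt false) - g (midV w hlt true))) := by
          rw [n1_smul _ (by positivity)]
          calc (1 : ℝ) = (2 : ℝ) ^ (w.length + 1) * (1 / 2) ^ (w.length + 1) := by
                rw [← mul_pow]; norm_num
            _ ≤ _ := mul_le_mul_of_nonneg_left h1 (by positivity)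
        rw [h2] at h3
        refine h3.trans ((n1_add_le _ _).trans ?_)
        have h4 : n1 ((-1 : ℝ) • δ true) = n1 (δ true) := by
          unfold n1
          apply sum_congr rfl
          intro l _
          rw [Pi.smul_apply, smul_eq_mul, abs_mul]
          simp
        rw [h4]
      have hstep : ((m : ℝ) + 1) * (1 / (32 * C)) ≤ Pot (u w h) + 1 / (32 * C) := by
        rw [add_mul, one_mul]
        linarith
      rcases exists_child hC (hu w h) (hδ false) (hδ true) hsum with hc | hc | hc | hc
      · refine ⟨(false, false) :: w, hch _ _, by rw [List.length_cons, hw], ?_⟩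
        rw [c0, Nat.cast_succ]
        exact hstep.trans hc
      · refine ⟨(false, true) :: w, hch _ _, by rw [List.length_cons, hw], ?_⟩
        rw [c1, Nat.cast_succ]
        exact hstep.trans hc
      · refine ⟨(true, false) :: w, hch _ _, by rw [List.length_cons, hw], ?_⟩
        rw [c0, Nat.cast_succ]
        exact hstep.trans hc
      · refine ⟨(true, true) :: w, hch _ _, by rw [List.length_cons, hw], ?_⟩
        rw [c1, Nat.cast_succ]
        exact hstep.trans hc
  obtain ⟨w, h, _, hP⟩ := key n le_rfl
  have h1 := hP.trans (pot_le (hu w h))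
  have hC0 : 0 < C := by linarith
  rw [mul_one_div, div_le_iff₀ (by positivity)] at h1
  calc (n : ℝ) ≤ _ := h1
    _ = _ := by ring

lemma card_le (n : ℕ) : Fintype.card (V n) ≤ 4 * 5 ^ n := by
  classical
  let φ : V n → Bool ⊕ ((Fin n → Option (Bool × Bool)) × Bool) := fun v =>
    match v.1 with
    | Sum.inl b => Sum.inl b
    | Sum.inr (w, i) => Sum.inr (fun j => w[j.1]?, i)
  have hφ : Function.Injective φ := by
    rintro ⟨b | ⟨w, i⟩, h⟩ ⟨b' | ⟨w', i'⟩, h'⟩ hh
    · simp only [φ, Sum.inl.injEq] at hh; simp [hh]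
    · simp only [φ, reduceCtorEq] at hh
    · simp only [φ, reduceCtorEq] at hh
    · simp only [φ, Sum.inr.injEq, Prod.mk.injEq] at hh
      obtain ⟨h1, h2⟩ := hh
      rw [depth_inr] at h h'
      have : w = w' := by
        apply List.ext_getElem?
        intro j
        by_cases hj : j < n
        · exact congrFun h1 ⟨j, hj⟩
        · rw [List.getElem?_eq_none (by omega), List.getElem?_eq_none (by omega)]
      simp [this, h2]
  have h1 := Fintype.card_le_of_injective φ hφ
  have h2 : Fintype.card (Bool ⊕ ((Fin n → Option (Bool × Bool)) × Bool)) = 2 + 5 ^ n * 2 := by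
    simp [Fintype.card_sum, Fintype.card_prod]
  rw [h2] at h1
  have : 1 ≤ 5 ^ n := Nat.one_le_pow _ _ (by norm_num)
  omega

lemma le_card (n : ℕ) : n ≤ Fintype.card (V n) := by
  let φ : Fin n → V n := fun j => ⟨Sum.inr (List.replicate j.1 (false, false), false), by
    rw [depth_inr, List.length_replicate]; exact j.2⟩
  have hφ : Function.Injective φ := by
    intro j j' h
    simp only [φ, Subtype.mk.injEq, Sum.inr.injEq, Prod.mk.injEq, and_true] at h
    have := congrArg List.length h
    simp only [List.length_replicate] at this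
    exact Fin.ext this
  have := Fintype.card_le_of_injective φ hφ
  simpa using this

/-- the asymptotic form -/
theorem main (C : ℝ) (hC : 1 ≤ C) (k : ℕ → ℕ)
    (hk : Tendsto (fun N : ℕ => Real.log (k N) / Real.log N) atTop (𝓝 0)) :
    ∃ n, 2 ≤ n ∧ ¬ EmbedsL1 (net n).dist (k (Fintype.card (V n))) C := by
  by_contra hcon
  push Not at hcon
  have hC0 : 0 < C := by linarith
  -- constants
  set A : ℝ := 32 * C ^ 2 with hA
  have hA0 : 0 < A := by positivity
  set L : ℝ := Real.log 5 with hL
  have hL0 : 0 < L := Real.log_pos (by norm_num)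
  set ε : ℝ := 1 / (4 * A * L) with hε
  have hε0 : 0 < ε := by positivity
  have h1 : ∀ᶠ N : ℕ in atTop, Real.log (k N) / Real.log N < ε := by
    have := hk.eventually (gt_mem_nhds hε0)
    exact this
  obtain ⟨N₀, hN₀⟩ := eventually_atTop.1 h1
  -- a large n
  obtain ⟨n, hn⟩ := exists_nat_gt (max (max (N₀ : ℝ) 2)
    (4 * (A * Real.log (1 + 2 * C) + Real.log 4 / (4 * L))))
  have hn1 : N₀ ≤ n := by
    have : (N₀ : ℝ) < n := lt_of_le_of_lt (le_trans (le_max_left _ _) (le_max_left _ _)) hn
    exact_mod_cast this.le
  have hn2 : 2 ≤ n := by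
    have : (2 : ℝ) < n := lt_of_le_of_lt (le_trans (le_max_right _ _) (le_max_left _ _)) hn
    exact_mod_cast this.le
  have hn3 : 4 * (A * Real.log (1 + 2 * C) + Real.log 4 / (4 * L)) < n :=
    lt_of_le_of_lt (le_max_right _ _) hn
  have hE := lower_bound hC (hcon n hn2)
  set N := Fintype.card (V n) with hN
  have hNn : n ≤ N := le_card n
  have hN2 : (2 : ℝ) ≤ N := by exact_mod_cast hn2.trans hNn
  have hlogN : 0 < Real.log N := Real.log_pos (by linarith)
  have h2 := hN₀ N (hn1.trans hNn)
  rw [div_lt_iff₀ hlogN] at h2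
  have h3 : Real.log N ≤ Real.log 4 + n * L := by
    have h4 : (N : ℝ) ≤ 4 * 5 ^ n := by exact_mod_cast card_le n
    calc Real.log N ≤ Real.log (4 * 5 ^ n) := Real.log_le_log (by linarith) h4
      _ = Real.log 4 + n * L := by
        rw [Real.log_mul (by norm_num) (by positivity), Real.log_pow]
  have h5 : Real.log (1 + ((k N : ℝ) + 1) * C) ≤ Real.log (1 + 2 * C) + Real.log (k N) := by
    rcases Nat.eq_zero_or_pos (k N) with h0 | h0
    · rw [h0]
      simp only [Nat.cast_zero, zero_add, one_mul, Real.log_zero, add_zero]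
      apply Real.log_le_log (by linarith)
      linarith
    · have h1k : (1 : ℝ) ≤ k N := by exact_mod_cast h0
      rw [← Real.log_mul (by linarith) (by linarith)]
      apply Real.log_le_log
      · have : 0 ≤ ((k N : ℝ) + 1) * C := by positivity
        linarith
      · nlinarith
  have h6 : (n : ℝ) ≤ A * (Real.log (1 + 2 * C) + ε * (Real.log 4 + n * L)) := by
    refine hE.trans (mul_le_mul_of_nonneg_left (h5.trans ?_) hA0.le)
    have : ε * Real.log N ≤ ε * (Real.log 4 + n * L) := mul_le_mul_of_nonneg_left h3 hε0.le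
    linarith
  have h7 : A * (Real.log (1 + 2 * C) + ε * (Real.log 4 + n * L)) =
      A * Real.log (1 + 2 * C) + Real.log 4 / (4 * L) + n / 4 := by
    rw [hε]
    field_simp
    ring
  rw [h7] at h6
  have hn0 : (0 : ℝ) ≤ n := Nat.cast_nonneg n
  linarith

end R122BN
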