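import Pool.Agent.R122.BN.Defs

/-!
# The network: a 2-tree of fair selections (helper122, MP_4d0cf5_co)
-/

namespace R122BN

open Finset

/-- words; a letter `(i, h)` selects the midpoint `i` and one of the two halves `h` -/
abbrev W := List (Bool × Bool)

/-- vertices: `inl false = s`, `inl true = t`, `inr (w, i)` = the `i`-th midpoint of the edge `w` -/
abbrev Ver := Bool ⊕ (W × Bool)

/-- the two ends of the edge `w` -/
def ends : W → Ver × Ver
  | [] => (Sum.inl false, Sum.inl true)
  | (i, h) :: w => if h then (Sum.inr (w, i), (ends w).2) else ((ends w).1, Sum.inr (w, i))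

def depth : Ver → ℕ
  | Sum.inl _ => 0
  | Sum.inr (w, _) => w.length + 1

lemma depth_inl (b : Bool) : depth (Sum.inl b) = 0 := rfl
lemma depth_inr (w : W) (i : Bool) : depth (Sum.inr (w, i)) = w.length + 1 := rfl

lemma depth_ends (w : W) : depth (ends w).1 ≤ w.length ∧ depth (ends w).2 ≤ w.length := by
  induction w with
  | nil => simp [ends, depth_inl]
  | cons p w ih =>
    obtain ⟨i, h⟩ := p
    cases h <;> simp [ends, depth_inr] <;> omega

/-- value of a vertex, given the values of the earlier vertices and a coin -/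
def sel (y : Ver → Bool) (c : Bool) : Ver → Bool
  | Sum.inl b => b
  | Sum.inr (w, _) => if c then y (ends w).1 else y (ends w).2

/-- the conditional law: a vertex copies one of its two parents, chosen by a fair coin -/
noncomputable def cp (v : Ver) (y : Ver → Bool) (b : Bool) : ℝ :=
  ((if sel y true v = b then 1 else 0) + (if sel y false v = b then 1 else 0)) / 2

/-- values on an edge, as a function of the coins -/
def ev (ω : Ver → Bool) : W → Bool × Bool
  | [] => (false, true)
  | (i, h) :: w =>
    let m := if ω (Sum.inr (w, i)) then (ev ω w).1 else (ev ω w).2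
    if h then (m, (ev ω w).2) else ((ev ω w).1, m)

/-- the value of a vertex, as a function of the coins -/
def X (ω : Ver → Bool) : Ver → Bool
  | Sum.inl b => b
  | Sum.inr (w, i) => if ω (Sum.inr (w, i)) then (ev ω w).1 else (ev ω w).2

lemma X_inl (ω : Ver → Bool) (b : Bool) : X ω (Sum.inl b) = b := rfl
lemma X_inr (ω : Ver → Bool) (w : W) (i : Bool) :
    X ω (Sum.inr (w, i)) = if ω (Sum.inr (w, i)) then (ev ω w).1 else (ev ω w).2 := rfl
lemma sel_inr (y : Ver → Bool) (c : Bool) (w : W) (i : Bool) :
    sel y c (Sum.inr (w, i)) = if c then y (ends w).1 else y (ends w).2 := rfl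

lemma ev_eq (ω : Ver → Bool) (w : W) : ev ω w = (X ω (ends w).1, X ω (ends w).2) := by
  induction w with
  | nil => rfl
  | cons p w ih =>
    obtain ⟨i, h⟩ := p
    cases h
    · simp only [ev, ends, Bool.false_eq_true, if_false, X_inr]
      rw [ih]
    · simp only [ev, ends, if_true, X_inr]
      rw [ih]

lemma X_sel (ω : Ver → Bool) (v : Ver) : X ω v = sel (X ω) (ω v) v := by
  rcases v with b | ⟨w, i⟩
  · rfl
  · rw [X_inr, sel_inr, ev_eq]

/-- the network has depth `n` -/
abbrev V (n : ℕ) := {v : Ver // depth v ≤ n}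

instance (n : ℕ) : Finite (V n) := by
  have h1 : {w : W | w.length ≤ n}.Finite := List.finite_length_le _ n
  have h2 : Finite {w : W | w.length ≤ n} := h1
  have : Function.Injective (fun v : V n => (match v with
    | ⟨Sum.inl b, _⟩ => Sum.inl b
    | ⟨Sum.inr (w, i), h⟩ => Sum.inr (⟨w, by simp [depth] at h; simp; omega⟩, i) :
      Bool ⊕ ({w : W | w.length ≤ n} × Bool))) := by
    rintro ⟨b | ⟨w, i⟩, h⟩ ⟨b' | ⟨w', i'⟩, h'⟩ hh
    · simp at hh; simp [hh]
    · simp at hh
    · simp at hh
    · simp at hh; simp [hh]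
  exact Finite.of_injective _ this

noncomputable instance (n : ℕ) : Fintype (V n) := Fintype.ofFinite _

/-- extension of a function on the vertices of depth `≤ n` -/
def ext (n : ℕ) (x : V n → Bool) (v : Ver) : Bool := if h : depth v ≤ n then x ⟨v, h⟩ else false

lemma ext_val {n : ℕ} (x : V n → Bool) (v : V n) : ext n x v.1 = x v := by
  unfold ext
  rw [dif_pos v.2]

/-- is `u` a parent of `v`? -/
def IsP (u v : Ver) : Prop := ∃ w i, v = Sum.inr (w, i) ∧ (u = (ends w).1 ∨ u = (ends w).2)

lemma IsP.depth {u v : Ver} (h : IsP u v) : depth u < depth v := by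
  obtain ⟨w, i, rfl, rfl | rfl⟩ := h
  · have := (depth_ends w).1
    simp only [R122BN.depth] at *
    omega
  · have := (depth_ends w).2
    simp only [R122BN.depth] at *
    omega

lemma sel_local {y z : Ver → Bool} {v : Ver} (h : ∀ u, IsP u v → y u = z u) (c : Bool) :
    sel y c v = sel z c v := by
  rcases v with b | ⟨w, i⟩
  · rfl
  · simp only [sel]
    rw [h _ ⟨w, i, rfl, Or.inl rfl⟩, h _ ⟨w, i, rfl, Or.inr rfl⟩]

open Classical in
/-- the network of depth `n` -/
noncomputable def net (n : ℕ) : BayesNet (V n) where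
  par v := univ.filter fun u => IsP u.1 v.1
  acyclic := by
    have key : ∀ a b : V n, Relation.TransGen
        (fun a b : V n => a ∈ univ.filter fun u : V n => IsP u.1 b.1) a b →
        depth a.1 < depth b.1 := by
      intro a b h
      induction h with
      | single h =>
        simp only [mem_filter, mem_univ, true_and] at h
        exact h.depth
      | tail _ h ih =>
        simp only [mem_filter, mem_univ, true_and] at h
        exact ih.trans h.depth
    intro v hv
    exact lt_irrefl _ (key v v hv)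
  cpd v x b := cp v.1 (ext n x) b
  cpd_par := by
    intro v x y h
    have h' : ∀ u, IsP u v.1 → ext n x u = ext n y u := by
      intro u hu
      have hd : depth u ≤ n := by
        have := hu.depth
        have := v.2
        omega
      have := h ⟨u, hd⟩ (by simpa using hu)
      unfold ext
      rw [dif_pos hd, dif_pos hd, this]
    funext b
    unfold cp
    rw [sel_local h' true, sel_local h' false]
  cpd_nonneg := by
    intro v x b
    unfold cp
    split_ifs <;> norm_num
  cpd_sum := by
    intro v x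
    unfold cp
    cases sel (ext n x) true v.1 <;> cases sel (ext n x) false v.1 <;> norm_num

lemma X_congr {ω ω' : Ver → Bool} : ∀ (w : W), (∀ w' i, w'.length < w.length →
    ω (Sum.inr (w', i)) = ω' (Sum.inr (w', i))) → ev ω w = ev ω' w
  | [], _ => rfl
  | (i, h) :: w, hw => by
    have ih := X_congr w (fun w' i' h' => hw w' i' (by simp; omega))
    have h1 := hw w i (by simp)
    simp only [ev]
    rw [ih, h1]

lemma uniq {n : ℕ} {x : V n → Bool} {ω : Ver → Bool}
    (h : ∀ v : V n, sel (ext n x) (ω v.1) v.1 = x v) : ∀ d, ∀ v : V n, depth v.1 ≤ d →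
      X ω v.1 = x v := by
  intro d
  induction d with
  | zero =>
    rintro ⟨b | ⟨w, i⟩, hv⟩ hd
    · exact h ⟨Sum.inl b, hv⟩
    · simp [depth] at hd
  | succ d ih =>
    rintro ⟨b | ⟨w, i⟩, hv⟩ hd
    · exact h ⟨Sum.inl b, hv⟩
    · have h0 := h ⟨Sum.inr (w, i), hv⟩
      rw [← h0, X_sel]
      apply sel_local
      intro u hu
      have h1 := hu.depth
      have hd' : depth (Sum.inr (w, i)) ≤ d + 1 := hd
      have hd1 : depth u < depth (Sum.inr (w, i)) := h1
      have h2 : depth u ≤ n := by omega
      have h3 := ih ⟨u, h2⟩ (show depth u ≤ d by omega)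
      simp only at h3
      rw [h3]
      unfold ext
      rw [dif_pos h2]

lemma law_eq (n : ℕ) (x : V n → Bool) : (net n).law x =
    (∑ ω : V n → Bool, if (fun v : V n => X (ext n ω) v.1) = x then (1 : ℝ) else 0) /
      2 ^ Fintype.card (V n) := by
  classical
  have h1 : (net n).law x = ∏ v : V n, ((∑ c : Bool, if sel (ext n x) c v.1 = x v then (1 : ℝ) else 0) / 2) := by
    unfold BayesNet.law
    apply prod_congr rfl
    intro v _
    show cp v.1 (ext n x) (x v) = _
    unfold cp
    rw [Fintype.sum_bool]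
  rw [h1, prod_div_distrib, prod_const, card_univ]
  congr 1
  rw [Finset.prod_univ_sum, Fintype.piFinset_univ]
  apply sum_congr rfl
  intro ω _
  rw [Finset.prod_ite_zero]
  simp only [prod_const_one]
  have hiff : (∀ v ∈ (univ : Finset (V n)), sel (ext n x) (ω v) v.1 = x v) ↔
      (fun v : V n => X (ext n ω) v.1) = x := by
    constructor
    · intro h
      funext v
      apply uniq (n := n) (x := x) (ω := ext n ω) _ n v v.2
      intro v
      rw [ext_val]
      exact h v (mem_univ v)
    · intro h v _
      have h2 : ∀ u : V n, x u = X (ext n ω) u.1 := fun u => by rw [← h]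
      rw [h2 v, X_sel (ext n ω) v.1, ext_val]
      apply sel_local
      intro u hu
      have h3 := hu.depth
      have h4 := v.2
      have h5 : depth u ≤ n := by omega
      unfold ext
      rw [dif_pos h5]
      exact h2 ⟨u, h5⟩
  by_cases hc : (fun v : V n => X (ext n ω) v.1) = x
  · rw [if_pos hc, if_pos (hiff.2 hc)]
  · rw [if_neg hc, if_neg (fun h => hc (hiff.1 h))]

lemma dist_eq (n : ℕ) (u v : V n) : (net n).dist u v =
    (∑ ω : V n → Bool, if X (ext n ω) u.1 ≠ X (ext n ω) v.1 then (1 : ℝ) else 0) /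
      2 ^ Fintype.card (V n) := by
  classical
  unfold BayesNet.dist
  simp only [law_eq]
  have h1 : ∀ x : V n → Bool, (if x u ≠ x v then
      (∑ ω : V n → Bool, if (fun v : V n => X (ext n ω) v.1) = x then (1 : ℝ) else 0) /
      2 ^ Fintype.card (V n) else 0) =
      (∑ ω : V n → Bool, if (fun v : V n => X (ext n ω) v.1) = x then
        (if x u ≠ x v then (1 : ℝ) else 0) else 0) / 2 ^ Fintype.card (V n) := by
    intro x
    split_ifs with h
    · rfl
    · simp
  rw [sum_congr rfl (fun x _ => h1 x), ← sum_div, sum_comm]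
  congr 1
  apply sum_congr rfl
  intro ω _
  rw [Finset.sum_ite_eq]
  simp

/-- flipping one coin -/
def flip {n : ℕ} (v₀ : V n) (ω : V n → Bool) : V n → Bool :=
  fun v => if v = v₀ then !(ω v) else ω v

lemma half {n : ℕ} (v₀ : V n) (A B : (V n → Bool) → Prop)
    [∀ ω, Decidable (A ω ∧ B ω)] [∀ ω, Decidable (A ω)]
    (hA : ∀ ω, A (Function.update ω v₀ (!(ω v₀))) ↔ A ω)
    (hB : ∀ ω, A ω → (B (Function.update ω v₀ (!(ω v₀))) ↔ ¬ B ω)) :
    ∑ ω : V n → Bool, (if A ω ∧ B ω then (1 : ℝ) else 0) =
      (∑ ω : V n → Bool, if A ω then (1 : ℝ) else 0) / 2 := by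
  classical
  let φ : (V n → Bool) → (V n → Bool) := fun ω => Function.update ω v₀ (!(ω v₀))
  have hφ : Function.Involutive φ := by
    intro ω
    simp [φ]
  have h1 : ∑ ω : V n → Bool, (if A ω ∧ B ω then (1 : ℝ) else 0) =
      ∑ ω : V n → Bool, (if A ω ∧ ¬ B ω then (1 : ℝ) else 0) := by
    refine (Equiv.sum_comp (hφ.toPerm φ) (fun ω => if A ω ∧ B ω then (1 : ℝ) else 0)).symm.trans ?_
    apply sum_congr rfl
    intro ω _
    have e : (hφ.toPerm φ) ω = Function.update ω v₀ (!(ω v₀)) := rfl
    rw [e]
    by_cases hAω : A ω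
    · simp only [hA ω, hB ω hAω]
    · simp only [hA ω, hAω, false_and]
  have h2 : ∑ ω : V n → Bool, (if A ω then (1 : ℝ) else 0) =
      ∑ ω : V n → Bool, (if A ω ∧ B ω then (1 : ℝ) else 0) +
      ∑ ω : V n → Bool, (if A ω ∧ ¬ B ω then (1 : ℝ) else 0) := by
    rw [← sum_add_distrib]
    apply sum_congr rfl
    intro ω _
    by_cases hAω : A ω <;> by_cases hBω : B ω <;> simp [hAω, hBω]
  rw [← h1] at h2
  linarith

/-- the ends of the edge `w`, as vertices of the network -/
def endV {n : ℕ} (w : W) (h : w.length ≤ n) : V n × V n :=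
  (⟨(ends w).1, (depth_ends w).1.trans h⟩, ⟨(ends w).2, (depth_ends w).2.trans h⟩)

def midV {n : ℕ} (w : W) (h : w.length < n) (i : Bool) : V n := ⟨Sum.inr (w, i), h⟩

lemma ext_update_mid {n : ℕ} (ω : V n → Bool) (w : W) (h : w.length < n) (i : Bool) (w' : W)
    (i' : Bool) (hw : w'.length < w.length) :
    ext n (Function.update ω (midV w h i) (!(ω (midV w h i)))) (Sum.inr (w', i')) =
      ext n ω (Sum.inr (w', i')) := by
  unfold ext
  split_ifs with h1
  · rw [Function.update_of_ne]
    intro hc
    have := congrArg Subtype.val hc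
    simp only [midV, Sum.inr.injEq, Prod.mk.injEq] at this
    rw [this.1] at hw
    exact lt_irrefl _ hw
  · rfl

lemma ev_update {n : ℕ} (ω : V n → Bool) (w : W) (h : w.length < n) (i : Bool) :
    ev (ext n (Function.update ω (midV w h i) (!(ω (midV w h i))))) w = ev (ext n ω) w :=
  X_congr w fun w' i' hw => ext_update_mid ω w h i w' i' hw

lemma ext_update_self {n : ℕ} (ω : V n → Bool) (w : W) (h : w.length < n) (i : Bool) :
    ext n (Function.update ω (midV w h i) (!(ω (midV w h i)))) (Sum.inr (w, i)) =
      !(ext n ω (Sum.inr (w, i))) := by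
  have h1 : depth (Sum.inr (w, i)) ≤ n := h
  unfold ext
  rw [dif_pos h1, dif_pos h1]
  exact Function.update_self _ _ _

lemma ext_update_other {n : ℕ} (ω : V n → Bool) (w : W) (h : w.length < n) (i j : Bool)
    (hij : j ≠ i) :
    ext n (Function.update ω (midV w h i) (!(ω (midV w h i)))) (Sum.inr (w, j)) =
      ext n ω (Sum.inr (w, j)) := by
  have h1 : depth (Sum.inr (w, j)) ≤ n := h
  unfold ext
  rw [dif_pos h1, dif_pos h1]
  rw [Function.update_of_ne]
  intro hc
  have := congrArg Subtype.val hc
  simp only [midV, Sum.inr.injEq, Prod.mk.injEq] at this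
  exact hij this.2

/-- distance of the ends of an edge -/
lemma dist_ends {n : ℕ} : ∀ (w : W) (h : w.length ≤ n),
    (net n).dist (endV w h).1 (endV w h).2 = (1 / 2) ^ w.length
  | [], h => by
    rw [dist_eq]
    have : ∀ ω : V n → Bool, X (ext n ω) ((endV (n := n) [] h).1).1 ≠
        X (ext n ω) ((endV (n := n) [] h).2).1 := by
      intro ω
      simp [endV, ends, X]
    simp [this]
  | (i, b) :: w, h => by
    have hw : w.length < n := by simpa using h
    have ih := dist_ends w hw.le
    rw [dist_eq] at ih ⊢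
    have hp : (0 : ℝ) < 2 ^ Fintype.card (V n) := by positivity
    rw [div_eq_iff hp.ne'] at ih ⊢
    have hA : ∀ ω : V n → Bool, (X (ext n ω) ((endV (n := n) w hw.le).1).1 ≠
        X (ext n ω) ((endV (n := n) w hw.le).2).1) ↔ (ev (ext n ω) w).1 ≠ (ev (ext n ω) w).2 := by
      intro ω
      rw [ev_eq]
      rfl
    have hB : ∀ ω : V n → Bool, (X (ext n ω) ((endV (n := n) ((i, b) :: w) h).1).1 ≠
        X (ext n ω) ((endV (n := n) ((i, b) :: w) h).2).1) ↔
        ((ev (ext n ω) w).1 ≠ (ev (ext n ω) w).2 ∧ ext n ω (Sum.inr (w, i)) = b) := by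
      intro ω
      have e1 : (X (ext n ω) ((endV (n := n) ((i, b) :: w) h).1).1,
        X (ext n ω) ((endV (n := n) ((i, b) :: w) h).2).1) = ev (ext n ω) ((i, b) :: w) := by
        rw [ev_eq]
        rfl
      have e2 := congrArg Prod.fst e1
      have e3 := congrArg Prod.snd e1
      simp only at e2 e3
      rw [e2, e3]
      simp only [ev]
      cases b <;> cases (ext n ω (Sum.inr (w, i))) <;> simp
    have := half (n := n) (midV w hw i) (fun ω => (ev (ext n ω) w).1 ≠ (ev (ext n ω) w).2)
      (fun ω => ext n ω (Sum.inr (w, i)) = b)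
      (by intro ω; simp only [ev_update])
      (by
        intro ω _
        simp only [ext_update_self]
        cases b <;> cases (ext n ω (Sum.inr (w, i))) <;> simp)
    rw [sum_congr rfl fun ω _ => if_congr (hB ω) rfl rfl, this,
      ← sum_congr rfl fun ω _ => if_congr (hA ω) rfl rfl, ih, List.length_cons, pow_succ]
    ring

/-- distance of the two midpoints of an edge -/
lemma dist_mid {n : ℕ} (w : W) (h : w.length < n) :
    (net n).dist (midV w h false) (midV w h true) = (1 / 2) ^ (w.length + 1) := by
  have ih := dist_ends w h.le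
  rw [dist_eq] at ih ⊢
  have hp : (0 : ℝ) < 2 ^ Fintype.card (V n) := by positivity
  rw [div_eq_iff hp.ne'] at ih ⊢
  have hA : ∀ ω : V n → Bool, (X (ext n ω) ((endV (n := n) w h.le).1).1 ≠
      X (ext n ω) ((endV (n := n) w h.le).2).1) ↔ (ev (ext n ω) w).1 ≠ (ev (ext n ω) w).2 := by
    intro ω
    rw [ev_eq]
    rfl
  have hB : ∀ ω : V n → Bool, (X (ext n ω) (midV w h false).1 ≠ X (ext n ω) (midV w h true).1) ↔
      ((ev (ext n ω) w).1 ≠ (ev (ext n ω) w).2 ∧
        ext n ω (Sum.inr (w, false)) ≠ ext n ω (Sum.inr (w, true))) := by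
    intro ω
    simp only [midV, X]
    cases (ext n ω (Sum.inr (w, false))) <;> cases (ext n ω (Sum.inr (w, true))) <;>
      cases (ev (ext n ω) w).1 <;> cases (ev (ext n ω) w).2 <;> simp
  have := half (n := n) (midV w h true) (fun ω => (ev (ext n ω) w).1 ≠ (ev (ext n ω) w).2)
    (fun ω => ext n ω (Sum.inr (w, false)) ≠ ext n ω (Sum.inr (w, true)))
    (by intro ω; simp only [ev_update])
    (by
      intro ω _
      simp only [ext_update_self, ext_update_other ω w h true false (by simp)]
      cases (ext n ω (Sum.inr (w, false))) <;> cases (ext n ω (Sum.inr (w, true))) <;> simp)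
  rw [sum_congr rfl fun ω _ => if_congr (hB ω) rfl rfl, this,
    ← sum_congr rfl fun ω _ => if_congr (hA ω) rfl rfl, ih, pow_succ]
  ring

end R122BN
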