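import Mathlib

/-!
# The entropy potential and martingales in `ℓ₁^k` (helper122, MP_4d0cf5_co)
-/

namespace R122BN

open Finset

/-- `F a x = x log (1 + a x)`. -/
noncomputable def F (a x : ℝ) : ℝ := x * Real.log (1 + a * x)

noncomputable def E (a x : ℝ) : ℝ := F a |x|

lemma hasDerivAt_F {a x : ℝ} (h : 0 < 1 + a * x) :
    HasDerivAt (F a) (Real.log (1 + a * x) + a * x / (1 + a * x)) x := by
  have h1 : HasDerivAt (fun x => 1 + a * x) a x := by
    simpa using ((hasDerivAt_id x).const_mul a).const_add 1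
  have h2 := (hasDerivAt_id x).mul (h1.log h.ne')
  have h3 : HasDerivAt (F a) (1 * Real.log (1 + a * x) + x * (a / (1 + a * x))) x := h2
  convert h3 using 1
  ring

lemma one_sub_le_log {x y : ℝ} (hx : 0 < x) (hy : 0 < y) : 1 - x / y ≤ Real.log y - Real.log x := by
  have := Real.one_sub_inv_le_log_of_pos (div_pos hy hx)
  rw [Real.log_div hy.ne' hx.ne'] at this
  simpa using this

/-- second difference of `F`, the case `d ≤ t` -/
lemma F_second {a t d R : ℝ} (ha : 0 < a) (hd : 0 ≤ d) (hdt : d ≤ t) (hR : t + d ≤ R) :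
    2 * F a t + d ^ 2 * (a / (1 + a * R)) ≤ F a (t + d) + F a (t - d) := by
  have hR0 : 0 < 1 + a * R := by nlinarith
  let φ : ℝ → ℝ := fun s => F a (t + s) + F a (t - s) - s ^ 2 * (a / (1 + a * R))
  have hder : ∀ s, 0 ≤ s → s ≤ d → HasDerivAt φ
      ((Real.log (1 + a * (t + s)) + a * (t + s) / (1 + a * (t + s))) -
        (Real.log (1 + a * (t - s)) + a * (t - s) / (1 + a * (t - s)))
        - 2 * s * (a / (1 + a * R))) s := by
    intro s hs hsd
    have h1 : HasDerivAt (fun s => F a (t + s))
        (Real.log (1 + a * (t + s)) + a * (t + s) / (1 + a * (t + s))) s := by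
      have := HasDerivAt.comp (h₂ := F a) (h := fun s => t + s) s
        (hasDerivAt_F (a := a) (x := t + s) (by nlinarith)) ((hasDerivAt_id' s).const_add t)
      rw [mul_one] at this
      exact this
    have h2 : HasDerivAt (fun s => F a (t - s))
        (-(Real.log (1 + a * (t - s)) + a * (t - s) / (1 + a * (t - s)))) s := by
      have := HasDerivAt.comp (h₂ := F a) (h := fun s => t - s) s
        (hasDerivAt_F (a := a) (x := t - s) (by nlinarith)) ((hasDerivAt_id' s).const_sub t)
      rw [mul_neg_one] at this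
      exact this
    have h3 : HasDerivAt (fun s : ℝ => s ^ 2 * (a / (1 + a * R))) (2 * s * (a / (1 + a * R))) s := by
      have := (hasDerivAt_pow 2 s).mul_const (a / (1 + a * R))
      simpa using this
    exact ((h1.add h2).sub h3).congr_deriv (by ring)
  have hmono : MonotoneOn φ (Set.Icc 0 d) := by
    apply monotoneOn_of_deriv_nonneg (convex_Icc 0 d)
    · intro s hs
      exact (hder s hs.1 hs.2).continuousAt.continuousWithinAt
    · intro s hs
      rw [interior_Icc] at hs
      exact (hder s hs.1.le hs.2.le).differentiableAt.differentiableWithinAt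
    · intro s hs
      rw [interior_Icc] at hs
      rw [(hder s hs.1.le hs.2.le).deriv]
      have hs0 := hs.1
      have hsd := hs.2
      have p1 : 0 < 1 + a * (t + s) := by nlinarith
      have p2 : 0 < 1 + a * (t - s) := by nlinarith
      have l1 := one_sub_le_log p2 p1
      have e1 : 1 - (1 + a * (t - s)) / (1 + a * (t + s)) = 2 * s * (a / (1 + a * (t + s))) := by
        field_simp
        ring
      rw [e1] at l1
      have l2 : 2 * s * (a / (1 + a * R)) ≤ 2 * s * (a / (1 + a * (t + s))) := by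
        apply mul_le_mul_of_nonneg_left _ (by linarith)
        apply div_le_div_of_nonneg_left ha.le p1
        nlinarith
      have l3 : a * (t - s) / (1 + a * (t - s)) ≤ a * (t + s) / (1 + a * (t + s)) := by
        rw [div_le_div_iff₀ p2 p1]
        nlinarith
      linarith
  have := hmono ⟨le_rfl, hd⟩ ⟨hd, le_rfl⟩ hd
  simp only [φ] at this
  simp only [add_zero, sub_zero] at this
  nlinarith [this]

/-- second difference of `F`, the case `t ≤ d` -/
lemma F_second' {a t d R : ℝ} (ha : 0 < a) (ht : 0 ≤ t) (hdt : t ≤ d) (hR : t + d ≤ R) :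
    2 * F a t + d ^ 2 * (a / (1 + a * R)) ≤ F a (d + t) + F a (d - t) := by
  have hR0 : 0 < 1 + a * R := by nlinarith
  let φ : ℝ → ℝ := fun s => F a (s + t) + F a (s - t) - s ^ 2 * (a / (1 + a * R))
  have hder : ∀ s, t ≤ s → s ≤ d → HasDerivAt φ
      ((Real.log (1 + a * (s + t)) + a * (s + t) / (1 + a * (s + t))) +
        (Real.log (1 + a * (s - t)) + a * (s - t) / (1 + a * (s - t)))
        - 2 * s * (a / (1 + a * R))) s := by
    intro s hs hsd
    have h1 : HasDerivAt (fun s => F a (s + t))
        (Real.log (1 + a * (s + t)) + a * (s + t) / (1 + a * (s + t))) s := by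
      have := HasDerivAt.comp (h₂ := F a) (h := fun s => s + t) s
        (hasDerivAt_F (a := a) (x := s + t) (by nlinarith)) ((hasDerivAt_id' s).add_const t)
      rw [mul_one] at this
      exact this
    have h2 : HasDerivAt (fun s => F a (s - t))
        (Real.log (1 + a * (s - t)) + a * (s - t) / (1 + a * (s - t))) s := by
      have := HasDerivAt.comp (h₂ := F a) (h := fun s => s - t) s
        (hasDerivAt_F (a := a) (x := s - t) (by nlinarith)) ((hasDerivAt_id' s).sub_const t)
      rw [mul_one] at this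
      exact this
    have h3 : HasDerivAt (fun s : ℝ => s ^ 2 * (a / (1 + a * R))) (2 * s * (a / (1 + a * R))) s := by
      have := (hasDerivAt_pow 2 s).mul_const (a / (1 + a * R))
      simpa using this
    exact (h1.add h2).sub h3
  have hmono : MonotoneOn φ (Set.Icc t d) := by
    apply monotoneOn_of_deriv_nonneg (convex_Icc t d)
    · intro s hs
      exact (hder s hs.1 hs.2).continuousAt.continuousWithinAt
    · intro s hs
      rw [interior_Icc] at hs
      exact (hder s hs.1.le hs.2.le).differentiableAt.differentiableWithinAt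
    · intro s hs
      rw [interior_Icc] at hs
      rw [(hder s hs.1.le hs.2.le).deriv]
      have hs0 := hs.1
      have hsd := hs.2
      have hs00 : 0 ≤ s := by linarith
      have p1 : 0 < 1 + a * (s + t) := by nlinarith
      have p2 : 0 < 1 + a * (s - t) := by nlinarith
      have l1 := one_sub_le_log one_pos p1
      rw [Real.log_one, sub_zero] at l1
      have e1 : 1 - 1 / (1 + a * (s + t)) = a * (s + t) / (1 + a * (s + t)) := by
        field_simp
        ring
      rw [e1] at l1
      have l2 := one_sub_le_log one_pos p2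
      rw [Real.log_one, sub_zero] at l2
      have e2 : 1 - 1 / (1 + a * (s - t)) = a * (s - t) / (1 + a * (s - t)) := by
        field_simp
        ring
      rw [e2] at l2
      have l3 : 0 ≤ a * (s - t) / (1 + a * (s - t)) := by
        apply div_nonneg _ p2.le
        nlinarith
      have l4 : s * (a / (1 + a * R)) ≤ a * (s + t) / (1 + a * (s + t)) := by
        rw [← mul_div_assoc, div_le_div_iff₀ hR0 p1]
        have : a * s * (1 + a * (s + t)) ≤ a * (s + t) * (1 + a * R) := by
          have h5 : 0 ≤ a * s := by positivity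
          have h6 : a * s ≤ a * (s + t) := by nlinarith
          have h7 : 1 + a * (s + t) ≤ 1 + a * R := by nlinarith
          exact mul_le_mul h6 h7 p1.le (by nlinarith)
        linarith
      linarith
  have h0 := F_second (R := R) ha ht le_rfl (by linarith)
  have := hmono ⟨le_rfl, hdt⟩ ⟨hdt, le_rfl⟩ hdt
  simp only [φ] at this
  have e3 : F a (t - t) = F a (t - t) := rfl
  nlinarith [this, h0]

/-- second difference of `E` -/
lemma E_second {a t d R : ℝ} (ha : 0 < a) (hR : |t| + |d| ≤ R) :
    2 * E a t + d ^ 2 * (a / (1 + a * R)) ≤ E a (t + d) + E a (t - d) := by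
  -- reduce to nonnegative `t`, `d`
  have key : ∀ t d : ℝ, 0 ≤ t → 0 ≤ d → t + d ≤ R →
      2 * E a t + d ^ 2 * (a / (1 + a * R)) ≤ E a (t + d) + E a (t - d) := by
    intro t d ht hd hR
    unfold E
    rw [abs_of_nonneg ht, abs_of_nonneg (by linarith : 0 ≤ t + d)]
    rcases le_total d t with h | h
    · rw [abs_of_nonneg (by linarith : 0 ≤ t - d)]
      exact F_second ha hd h hR
    · rw [abs_of_nonpos (by linarith : t - d ≤ 0), neg_sub, add_comm t d]
      exact F_second' ha ht h (by linarith)
  have hE : ∀ x, E a (-x) = E a x := fun x => by unfold E; rw [abs_neg]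
  rcases le_total 0 t with ht | ht <;> rcases le_total 0 d with hd | hd
  · rw [abs_of_nonneg ht, abs_of_nonneg hd] at hR
    exact key t d ht hd hR
  · rw [abs_of_nonneg ht, abs_of_nonpos hd] at hR
    have := key t (-d) ht (by linarith) hR
    rw [neg_sq] at this
    have e1 : t + -d = t - d := by ring
    have e2 : t - -d = t + d := by ring
    rw [e1, e2] at this
    linarith
  · rw [abs_of_nonpos ht, abs_of_nonneg hd] at hR
    have := key (-t) d (by linarith) hd hR
    have e1 : -t + d = -(t - d) := by ring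
    have e2 : -t - d = -(t + d) := by ring
    rw [e1, e2, hE, hE, hE] at this
    linarith
  · rw [abs_of_nonpos ht, abs_of_nonpos hd] at hR
    have := key (-t) (-d) (by linarith) (by linarith) hR
    rw [neg_sq] at this
    have e1 : -t + -d = -(t + d) := by ring
    have e2 : -t - -d = -(t - d) := by ring
    rw [e1, e2, hE, hE, hE] at this
    linarith

lemma E_nonneg {a x : ℝ} (ha : 0 < a) : 0 ≤ E a x := by
  unfold E F
  apply mul_nonneg (abs_nonneg _)
  apply Real.log_nonneg
  have := mul_nonneg ha.le (abs_nonneg x)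
  linarith

/-- the `ℓ₁` norm -/
noncomputable def n1 {k : ℕ} (u : Fin k → ℝ) : ℝ := ∑ l, |u l|

/-- the potential -/
noncomputable def Pot {k : ℕ} (u : Fin k → ℝ) : ℝ := ∑ l, E (k + 1) (u l)

lemma pot_nonneg {k : ℕ} (u : Fin k → ℝ) : 0 ≤ Pot u :=
  sum_nonneg fun _ _ => E_nonneg (by positivity)

lemma pot_le {k : ℕ} {u : Fin k → ℝ} {C : ℝ} (hC : n1 u ≤ C) :
    Pot u ≤ C * Real.log (1 + (k + 1) * C) := by
  have hC0 : 0 ≤ C := le_trans (sum_nonneg fun _ _ => abs_nonneg _) hC
  have h1 : ∀ l, |u l| ≤ C := fun l =>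
    (single_le_sum (f := fun l => |u l|) (fun _ _ => abs_nonneg _) (mem_univ l)).trans hC
  have hlog : 0 ≤ Real.log (1 + ((k : ℝ) + 1) * C) := Real.log_nonneg (by
    have : 0 ≤ ((k : ℝ) + 1) * C := by positivity
    linarith)
  calc Pot u ≤ ∑ l, |u l| * Real.log (1 + (k + 1) * C) := by
        apply sum_le_sum
        intro l _
        unfold E F
        apply mul_le_mul_of_nonneg_left _ (abs_nonneg _)
        apply Real.log_le_log
        · have : 0 ≤ ((k : ℝ) + 1) * |u l| := by positivity
          linarith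
        · have : ((k : ℝ) + 1) * |u l| ≤ (k + 1) * C :=
            mul_le_mul_of_nonneg_left (h1 l) (by positivity)
          linarith
    _ = n1 u * Real.log (1 + (k + 1) * C) := by rw [n1, sum_mul]
    _ ≤ _ := mul_le_mul_of_nonneg_right hC hlog

/-- gain of the potential in one symmetric step -/
lemma pot_gain {k : ℕ} {u δ : Fin k → ℝ} {C : ℝ} (hC1 : 1 ≤ C) (hu : n1 u ≤ C)
    (hδ : n1 δ ≤ 2 * C) :
    2 * Pot u + n1 δ ^ 2 / (4 * C) ≤ Pot (u + δ) + Pot (u - δ) := by
  set a : ℝ := (k : ℝ) + 1 with ha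
  have ha0 : 0 < a := by positivity
  have h1 : ∀ l, 2 * E a (u l) + |δ l| ^ 2 / (|u l| + |δ l| + 1 / a) ≤
      E a (u l + δ l) + E a (u l - δ l) := by
    intro l
    have h := E_second (a := a) (t := u l) (d := δ l) ha0 le_rfl
    have e : (δ l) ^ 2 * (a / (1 + a * (|u l| + |δ l|))) = |δ l| ^ 2 / (|u l| + |δ l| + 1 / a) := by
      rw [sq_abs]
      have p : 0 < |u l| + |δ l| + 1 / a := by positivity
      have p' : 0 < 1 + a * (|u l| + |δ l|) := by positivity
      rw [← mul_div_assoc, div_eq_div_iff p'.ne' p.ne']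
      field_simp
      ring
    rw [e] at h
    exact h
  have h2 : 2 * Pot u + ∑ l, |δ l| ^ 2 / (|u l| + |δ l| + 1 / a) ≤ Pot (u + δ) + Pot (u - δ) := by
    unfold Pot
    rw [mul_sum, ← sum_add_distrib, ← sum_add_distrib]
    exact sum_le_sum fun l _ => h1 l
  have h3 : n1 δ ^ 2 / (4 * C) ≤ ∑ l, |δ l| ^ 2 / (|u l| + |δ l| + 1 / a) := by
    have hs := Finset.sq_sum_div_le_sum_sq_div (univ : Finset (Fin k)) (fun l => |δ l|)
      (g := fun l => |u l| + |δ l| + 1 / a) (fun l _ => by positivity)
    refine le_trans ?_ hs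
    have hsum : ∑ l, (|u l| + |δ l| + 1 / a) ≤ 4 * C := by
      rw [sum_add_distrib, sum_add_distrib, sum_const, card_univ, Fintype.card_fin, nsmul_eq_mul]
      have : (k : ℝ) * (1 / a) ≤ 1 := by
        rw [mul_one_div, div_le_one ha0]
        linarith
      unfold n1 at hu hδ
      linarith
    rcases Nat.eq_zero_or_pos k with hk | hk
    · subst hk
      simp [n1]
    · have hpos : 0 < ∑ l : Fin k, (|u l| + |δ l| + 1 / a) := by
        have : Nonempty (Fin k) := ⟨⟨0, hk⟩⟩
        apply sum_pos (fun l _ => by positivity) univ_nonempty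
      unfold n1
      exact div_le_div_of_nonneg_left (by positivity) hpos hsum
  linarith

/-- one of four children has a larger potential -/
lemma exists_child {k : ℕ} {u δ₀ δ₁ : Fin k → ℝ} {C : ℝ} (hC1 : 1 ≤ C) (hu : n1 u ≤ C)
    (h0 : n1 δ₀ ≤ 2 * C) (h1 : n1 δ₁ ≤ 2 * C) (h : 1 ≤ n1 δ₀ + n1 δ₁) :
    Pot u + 1 / (32 * C) ≤ Pot (u + δ₀) ∨ Pot u + 1 / (32 * C) ≤ Pot (u - δ₀) ∨
    Pot u + 1 / (32 * C) ≤ Pot (u + δ₁) ∨ Pot u + 1 / (32 * C) ≤ Pot (u - δ₁) := by
  by_contra hc
  push Not at hc
  obtain ⟨c1, c2, c3, c4⟩ := hc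
  have g0 := pot_gain hC1 hu h0
  have g1 := pot_gain hC1 hu h1
  have h5 : 1 / 2 ≤ n1 δ₀ ^ 2 + n1 δ₁ ^ 2 := by nlinarith [sq_nonneg (n1 δ₀ - n1 δ₁)]
  have h6 : (1 / 2) / (4 * C) ≤ n1 δ₀ ^ 2 / (4 * C) + n1 δ₁ ^ 2 / (4 * C) := by
    rw [← add_div]
    exact div_le_div_of_nonneg_right h5 (by linarith)
  have h7 : (1 / 2 : ℝ) / (4 * C) = 4 * (1 / (32 * C)) := by
    field_simp
    norm_num
  rw [h7] at h6
  linarith

end R122BN
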